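import Pool.Agent.Q73.TG.Stm

set_option autoImplicit false

/-!
# Job T15 of project TG: lower bounds for the mass of one beam
-/

namespace Pool.Agent.Q24.TG

open Pool.Agent.Q73.TG
open MeasureTheory Set
open scoped ENNReal

lemma geo_sum (K : ℕ) : ∑ k : Fin K, (1 / 2 : ℝ) ^ ((k : ℕ) + 1) = 1 - (1 / 2) ^ K := by
  induction K with
  | zero => simp
  | succ K ih =>
    rw [Fin.sum_univ_castSucc]
    simp only [Fin.val_castSucc, Fin.val_last]
    rw [ih]
    ring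

lemma geo_sum_le (K : ℕ) : ∑ k : Fin K, (1 / 2 : ℝ) ^ ((k : ℕ) + 1) ≤ 1 := by
  rw [geo_sum]
  have : (0 : ℝ) ≤ (1 / 2) ^ K := by positivity
  linarith

lemma aa_nonneg (K : ℕ) (b : Fin K → Bool) : 0 ≤ aa K b := by
  unfold aa
  refine Finset.sum_nonneg fun k _ => ?_
  split_ifs <;> positivity

lemma aa_le (K : ℕ) (b : Fin K → Bool) : aa K b ≤ 1 := by
  unfold aa
  refine (Finset.sum_le_sum fun k _ => ?_).trans (geo_sum_le K)
  split_ifs
  · exact le_rfl
  · positivity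

lemma bb_nonpos (K : ℕ) (b : Fin K → Bool) : bb K b ≤ 0 := by
  unfold bb
  rw [neg_nonpos]
  refine Finset.sum_nonneg fun k _ => ?_
  unfold xk
  split_ifs <;> positivity

lemma bb_ge (K : ℕ) (b : Fin K → Bool) : -1 ≤ bb K b := by
  unfold bb
  rw [neg_le_neg_iff]
  refine (Finset.sum_le_sum fun k _ => ?_).trans (geo_sum_le K)
  have hx : xk K k ≤ 1 := by
    unfold xk
    have h1 : (k : ℕ) + 1 ≤ K := k.2
    have h2 : (0 : ℝ) < K := by
      have : 0 < K := by omega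
      exact_mod_cast this
    rw [div_le_one h2]
    exact_mod_cast h1
  split_ifs
  · calc xk K k * (1 / 2 : ℝ) ^ ((k : ℕ) + 1) ≤ 1 * (1 / 2 : ℝ) ^ ((k : ℕ) + 1) :=
          mul_le_mul_of_nonneg_right hx (by positivity)
      _ = _ := one_mul _
  · positivity

lemma yy_abs_le (K : ℕ) (b : Fin K → Bool) (X : ℝ) : |yy K b X| ≤ |X| + 1 := by
  have h1 := aa_nonneg K b
  have h2 := aa_le K b
  have h3 := bb_nonpos K b
  have h4 := bb_ge K b
  unfold yy
  refine (abs_add_le _ _).trans ?_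
  have h5 : |aa K b * X| ≤ |X| := by
    rw [abs_mul, abs_of_nonneg h1]
    have := abs_nonneg X
    nlinarith
  have h6 : |bb K b| ≤ 1 := abs_le.2 ⟨h4, by linarith⟩
  linarith

/-- the power is at least `1 / 4` -/
lemma pow_ge {n : ℕ} {t : ℝ} (hn : 1 ≤ n) (h1 : t ≤ 1 / (2 * n : ℕ)) : 1 / 4 ≤ (1 - t) ^ (2 * n) := by
  have hn0 : (0 : ℝ) < n := by exact_mod_cast hn
  have hn1 : (1 : ℝ) ≤ n := by exact_mod_cast hn
  push_cast at h1
  have ht : t ≤ 1 / 2 := by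
    refine h1.trans ?_
    rw [div_le_div_iff₀ (by positivity) (by norm_num)]
    linarith
  have h3 : (1 : ℝ) - 1 / (2 * n) ≤ 1 - t := by linarith
  have h0 : (0 : ℝ) ≤ 1 - 1 / (2 * n) := by
    rw [sub_nonneg, div_le_one (by positivity)]
    linarith
  have h4 : (1 / 2 : ℝ) ≤ (1 - 1 / (2 * n)) ^ n := by
    have h5 := one_add_mul_le_pow (a := -(1 / (2 * n : ℝ))) (by linarith) n
    have e : 1 + (n : ℝ) * -(1 / (2 * n : ℝ)) = 1 / 2 := by field_simp; norm_num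
    rw [e] at h5
    have e2 : 1 + -(1 / (2 * n : ℝ)) = 1 - 1 / (2 * n) := by ring
    rwa [e2] at h5
  have h5 : (1 / 2 : ℝ) ≤ (1 - t) ^ n := h4.trans (pow_le_pow_left₀ h0 h3 n)
  rw [mul_comm, pow_mul]
  nlinarith

lemma term_ge {K : ℕ} (hK : 1 ≤ K) (b : Fin K → Bool) {X Y : ℝ} (h : |yy K b X - Y| ≤ (1 / 2) ^ K) :
    1 / 4 ≤ term K b X Y := by
  unfold term
  obtain ⟨k, rfl⟩ := Nat.exists_eq_add_of_le hK
  have e : 4 ^ (1 + k) = 2 * (2 * 4 ^ k) := by ring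
  rw [e]
  apply pow_ge
  · have : 0 < 4 ^ k := by positivity
    omega
  · rw [← e]
    have h1 : (yy (1 + k) b X - Y) ^ 2 ≤ 1 / ((4 ^ (1 + k) : ℕ) : ℝ) := by
      rw [← sq_abs]
      have h2 := pow_le_pow_left₀ (abs_nonneg _) h 2
      refine h2.trans (le_of_eq ?_)
      push_cast
      rw [← pow_mul, mul_comm (1 + k) 2, pow_mul, ← one_div_pow]
      norm_num
    refine le_trans ?_ h1
    have h2 : 1 ≤ (1 + (aa (1 + k) b) ^ 2 + (bb (1 + k) b) ^ 2) * (1 + X ^ 2 + Y ^ 2) := by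
      have h3 : 1 ≤ 1 + (aa (1 + k) b) ^ 2 + (bb (1 + k) b) ^ 2 := by nlinarith [sq_nonneg (aa (1 + k) b), sq_nonneg (bb (1 + k) b)]
      have h4 : 1 ≤ 1 + X ^ 2 + Y ^ 2 := by nlinarith [sq_nonneg X, sq_nonneg Y]
      exact one_le_mul_of_one_le_of_one_le h3 h4
    exact div_le_self (sq_nonneg _) h2

/-- the strip around the line of a beam -/
def strip (K : ℕ) (b : Fin K → Bool) (α β : ℝ) : Set (ℝ × ℝ) :=
  regionBetween (fun X => yy K b X - (1 / 2) ^ K) (fun X => yy K b X + (1 / 2) ^ K) (Ioo α β)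

lemma yy_meas (K : ℕ) (b : Fin K → Bool) : Measurable (yy K b) := by
  unfold yy
  fun_prop

lemma strip_meas (K : ℕ) (b : Fin K → Bool) (α β : ℝ) : MeasurableSet (strip K b α β) :=
  measurableSet_regionBetween ((yy_meas K b).sub_const _) ((yy_meas K b).add_const _) measurableSet_Ioo

lemma strip_vol (K : ℕ) (b : Fin K → Bool) (α β : ℝ) :
    volume (strip K b α β) = ENNReal.ofReal (2 * (1 / 2) ^ K) * ENNReal.ofReal (β - α) := by
  unfold strip
  rw [Measure.volume_eq_prod, volume_regionBetween_eq_lintegral ((yy_meas K b).sub_const _).aemeasurable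
    ((yy_meas K b).add_const _).aemeasurable measurableSet_Ioo]
  have e : ∀ X, ((fun X => yy K b X + (1 / 2 : ℝ) ^ K) - fun X => yy K b X - (1 / 2) ^ K) X =
      2 * (1 / 2) ^ K := by
    intro X
    rw [Pi.sub_apply]
    ring
  simp only [e]
  rw [setLIntegral_const, Real.volume_Ioo]

lemma strip_mem {K : ℕ} {b : Fin K → Bool} {α β : ℝ} {z : ℝ × ℝ} (h : z ∈ strip K b α β) :
    α < z.1 ∧ z.1 < β ∧ |yy K b z.1 - z.2| ≤ (1 / 2) ^ K := by
  obtain ⟨⟨h1, h2⟩, h3, h4⟩ := h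
  simp only at h3 h4
  exact ⟨h1, h2, abs_le.2 ⟨by linarith, by linarith⟩⟩

lemma strip_low {K : ℕ} (hK : 1 ≤ K) (b : Fin K → Bool) {α β : ℝ} (hα : 0 ≤ α) (hαβ : α + 1 / 2 ≤ β)
    (hβ : β ≤ 3) :
    ENNReal.ofReal (1 / 4 * (31 : ℝ) ^ (-(3 / 2) : ℝ) * (1 / 2) ^ K) ≤
      ∫⁻ z in strip K b α β, ENNReal.ofReal (term K b z.1 z.2) ∂muC := by
  have hd : ∀ z ∈ strip K b α β, ENNReal.ofReal ((31 : ℝ) ^ (-(3 / 2) : ℝ)) ≤
      ENNReal.ofReal ((1 + z.1 ^ 2 + z.2 ^ 2) ^ (-(3 / 2) : ℝ)) := by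
    intro z hz
    obtain ⟨h1, h2, h3⟩ := strip_mem hz
    apply ENNReal.ofReal_le_ofReal
    have h4 := yy_abs_le K b z.1
    have h5 : |z.1| ≤ 3 := abs_le.2 ⟨by linarith, by linarith⟩
    have h6 : ((1 : ℝ) / 2) ^ K ≤ 1 / 2 := by
      calc ((1 : ℝ) / 2) ^ K ≤ (1 / 2) ^ 1 := pow_le_pow_of_le_one (by norm_num) (by norm_num) hK
        _ = 1 / 2 := pow_one _
    have h7 : |z.2| ≤ 9 / 2 := by
      have : |z.2| ≤ |yy K b z.1| + |yy K b z.1 - z.2| := by
        have e : z.2 = yy K b z.1 - (yy K b z.1 - z.2) := by ring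
        calc |z.2| = |yy K b z.1 - (yy K b z.1 - z.2)| := by rw [← e]
          _ ≤ _ := abs_sub _ _
      linarith
    have h8 : z.1 ^ 2 ≤ 9 := by
      rw [← sq_abs]
      nlinarith [abs_nonneg z.1]
    have h9 : z.2 ^ 2 ≤ 81 / 4 := by
      rw [← sq_abs]
      nlinarith [abs_nonneg z.2]
    apply Real.rpow_le_rpow_of_nonpos (by positivity) (by linarith) (by norm_num)
  have hμ : ENNReal.ofReal ((31 : ℝ) ^ (-(3 / 2) : ℝ)) * volume (strip K b α β) ≤ muC (strip K b α β) := by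
    unfold muC
    rw [withDensity_apply _ (strip_meas K b α β), ← setLIntegral_const]
    exact setLIntegral_mono' (strip_meas K b α β) hd
  have hv : ENNReal.ofReal ((1 / 2) ^ K) ≤ volume (strip K b α β) := by
    rw [strip_vol, ← ENNReal.ofReal_mul (by positivity)]
    apply ENNReal.ofReal_le_ofReal
    have : (0 : ℝ) < (1 / 2) ^ K := by positivity
    nlinarith
  calc ENNReal.ofReal (1 / 4 * (31 : ℝ) ^ (-(3 / 2) : ℝ) * (1 / 2) ^ K) =
      ENNReal.ofReal (1 / 4) * (ENNReal.ofReal ((31 : ℝ) ^ (-(3 / 2) : ℝ)) * ENNReal.ofReal ((1 / 2) ^ K)) := by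
        rw [ENNReal.ofReal_mul (by positivity), ENNReal.ofReal_mul (by positivity), mul_assoc]
    _ ≤ ENNReal.ofReal (1 / 4) * muC (strip K b α β) := by
        refine mul_le_mul_right (le_trans ?_ hμ) _
        exact mul_le_mul_right hv _
    _ = ∫⁻ z in strip K b α β, ENNReal.ofReal (1 / 4) ∂muC := (setLIntegral_const _ _).symm
    _ ≤ _ := setLIntegral_mono' (strip_meas K b α β) fun z hz =>
        ENNReal.ofReal_le_ofReal (term_ge hK b (strip_mem hz).2.2)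

/-- **lower bounds for the mass of one beam** -/
theorem t15 : T15 := by
  refine ⟨1 / 4 * (31 : ℝ) ^ (-(3 / 2) : ℝ), by positivity, fun K b hK => ⟨?_, ?_⟩⟩
  · refine (strip_low hK b (α := 0) (β := 1 / 2) le_rfl (by norm_num) (by norm_num)).trans ?_
    exact lintegral_mono_set fun z hz => strip_mem hz
  · refine (strip_low hK b (α := 2) (β := 3) (by norm_num) (by norm_num) le_rfl).trans ?_
    exact lintegral_mono_set fun z hz => ⟨(strip_mem hz).1, (strip_mem hz).2.1⟩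

end Pool.Agent.Q24.TG
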