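import Pool.Agent.Q73.TG.Stm

set_option autoImplicit false

/-!
# Job T2 of project TG: a uniform ball in an open set on every great circle
-/

namespace Pool.Agent.Q24.TG

open Pool.Agent.Q73.TG
open MeasureTheory Set Filter Topology

/-- orthonormal pairs -/
def OP (m : ℕ) : Set (E m × E m) := {p | ‖p.1‖ = 1 ∧ ‖p.2‖ = 1 ∧ inner ℝ p.1 p.2 = 0}

lemma OP_compact (m : ℕ) : IsCompact (OP m) := by
  refine Metric.isCompact_of_isClosed_isBounded ?_ ?_
  · have h1 : IsClosed {p : E m × E m | ‖p.1‖ = 1} := isClosed_eq (by fun_prop) continuous_const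
    have h2 : IsClosed {p : E m × E m | ‖p.2‖ = 1} := isClosed_eq (by fun_prop) continuous_const
    have h3 : IsClosed {p : E m × E m | inner ℝ p.1 p.2 = 0} :=
      isClosed_eq (by fun_prop) continuous_const
    exact h1.inter (h2.inter h3)
  · refine (Metric.isBounded_closedBall (x := (0 : E m × E m)) (r := 1)).subset fun p hp => ?_
    rw [mem_closedBall_zero_iff, Prod.norm_def]
    exact max_le hp.1.le hp.2.1.le

lemma pair_normSq {m : ℕ} {u v : E m} (hu : ‖u‖ = 1) (hv : ‖v‖ = 1) (huv : inner ℝ u v = 0) (a b : ℝ) :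
    ‖a • u + b • v‖ ^ 2 = a ^ 2 + b ^ 2 := by
  rw [@norm_add_sq_real, norm_smul, norm_smul, hu, hv, inner_smul_left, inner_smul_right, huv]
  simp

lemma pair_norm {m : ℕ} {u v : E m} (hu : ‖u‖ = 1) (hv : ‖v‖ = 1) (huv : inner ℝ u v = 0) {a b : ℝ}
    (hab : a ^ 2 + b ^ 2 = 1) : ‖a • u + b • v‖ = 1 := by
  have h := pair_normSq hu hv huv a b
  rw [hab] at h
  have h0 := norm_nonneg (a • u + b • v)
  nlinarith

/-- every plane has an orthonormal basis -/
lemma exists_pair {m : ℕ} (W : Submodule ℝ (E m)) (hW : Module.finrank ℝ W = 2) :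
    ∃ u v : E m, u ∈ W ∧ v ∈ W ∧ ‖u‖ = 1 ∧ ‖v‖ = 1 ∧ inner ℝ u v = 0 ∧
      ∀ x ∈ W, ∃ a b : ℝ, x = a • u + b • v := by
  let B := (stdOrthonormalBasis ℝ W).reindex (finCongr hW)
  have hB := B.orthonormal
  refine ⟨B 0, B 1, (B 0).2, (B 1).2, ?_, ?_, ?_, fun x hx => ?_⟩
  · exact hB.1 0
  · exact hB.1 1
  · exact hB.2 (show (0 : Fin 2) ≠ 1 by decide)
  · have h := B.sum_repr ⟨x, hx⟩
    rw [Fin.sum_univ_two] at h
    refine ⟨B.repr ⟨x, hx⟩ 0, B.repr ⟨x, hx⟩ 1, ?_⟩
    have h2 := congrArg Subtype.val h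
    simpa using h2.symm

lemma finrank_pair {m : ℕ} {u v : E m} (hu : ‖u‖ = 1) (hv : ‖v‖ = 1) (huv : inner ℝ u v = 0) :
    Module.finrank ℝ (Submodule.span ℝ {u, v}) = 2 := by
  have ho : Orthonormal ℝ ![u, v] := by
    constructor
    · intro i
      fin_cases i
      · exact hu
      · exact hv
    · intro i j hij
      fin_cases i <;> fin_cases j
      · exact absurd rfl hij
      · exact huv
      · change inner ℝ v u = 0
        rw [real_inner_comm]
        exact huv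
      · exact absurd rfl hij
  have h := finrank_span_eq_card ho.linearIndependent
  have e : Set.range ![u, v] = {u, v} := by
    simp [Set.pair_comm]
  rw [e, Fintype.card_fin] at h
  exact h

lemma abs_le_one {a b : ℝ} (hab : a ^ 2 + b ^ 2 = 1) : |a| ≤ 1 := by
  rw [← sq_le_one_iff_abs_le_one]
  nlinarith [sq_nonneg b]

/-- **a uniform ball on every great circle** -/
theorem t2 : T2 := by
  intro m A hA hmeet
  have key : ∃ δ > (0 : ℝ), ∀ p ∈ OP m, ∃ a b : ℝ, a ^ 2 + b ^ 2 = 1 ∧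
      ∀ x : Sph m, dist (x : E m) (a • p.1 + b • p.2) < δ → x ∈ A := by
    refine (OP_compact m).induction_on (p := fun S => ∃ δ > (0 : ℝ), ∀ p ∈ S, ∃ a b : ℝ,
      a ^ 2 + b ^ 2 = 1 ∧ ∀ x : Sph m, dist (x : E m) (a • p.1 + b • p.2) < δ → x ∈ A) ?_ ?_ ?_ ?_
    · exact ⟨1, one_pos, fun p hp => absurd hp (Set.notMem_empty p)⟩
    · rintro S T hST ⟨δ, hδ, h⟩
      exact ⟨δ, hδ, fun p hp => h p (hST hp)⟩
    · rintro S T ⟨δ, hδ, h⟩ ⟨δ', hδ', h'⟩
      refine ⟨min δ δ', lt_min hδ hδ', fun p hp => ?_⟩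
      rcases hp with hp | hp
      · obtain ⟨a, b, hab, hx⟩ := h p hp
        exact ⟨a, b, hab, fun x hd => hx x (hd.trans_le (min_le_left _ _))⟩
      · obtain ⟨a, b, hab, hx⟩ := h' p hp
        exact ⟨a, b, hab, fun x hd => hx x (hd.trans_le (min_le_right _ _))⟩
    · rintro ⟨u, v⟩ ⟨hu, hv, huv⟩
      simp only at hu hv huv
      obtain ⟨x, hxγ, hxA⟩ := hmeet _ ⟨Submodule.span ℝ {u, v}, finrank_pair hu hv huv, rfl⟩
      obtain ⟨a, b, hab⟩ := Submodule.mem_span_pair.1 hxγ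
      have hx1 : ‖(x : E m)‖ = 1 := mem_sphere_zero_iff_norm.1 x.2
      have hab1 : a ^ 2 + b ^ 2 = 1 := by
        rw [← pair_normSq hu hv huv, hab, hx1, one_pow]
      obtain ⟨ε, hε, hball⟩ := Metric.isOpen_iff.1 hA x hxA
      refine ⟨Metric.ball (u, v) (ε / 4), mem_nhdsWithin_of_mem_nhds (Metric.ball_mem_nhds _ (by positivity)),
        ε / 2, by positivity, ?_⟩
      rintro ⟨u', v'⟩ huv'
      rw [Metric.mem_ball, Prod.dist_eq, max_lt_iff] at huv'
      refine ⟨a, b, hab1, fun y hy => hball ?_⟩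
      rw [Metric.mem_ball, Subtype.dist_eq]
      have h1 : dist (a • u' + b • v') (x : E m) ≤ ε / 2 := by
        rw [← hab, dist_eq_norm]
        have e : a • u' + b • v' - (a • u + b • v) = a • (u' - u) + b • (v' - v) := by
          module
        rw [e]
        refine (norm_add_le _ _).trans ?_
        rw [norm_smul, norm_smul, ← dist_eq_norm, ← dist_eq_norm, Real.norm_eq_abs, Real.norm_eq_abs]
        have ha := abs_le_one hab1
        have hb := abs_le_one (a := b) (b := a) (by linarith)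
        have h2 : |a| * dist u' u ≤ 1 * (ε / 4) :=
          mul_le_mul ha huv'.1.le dist_nonneg zero_le_one
        have h3 : |b| * dist v' v ≤ 1 * (ε / 4) :=
          mul_le_mul hb huv'.2.le dist_nonneg zero_le_one
        linarith
      have h2 := dist_triangle (y : E m) (a • u' + b • v') (x : E m)
      simp only at hy
      linarith
  obtain ⟨δ, hδ, h⟩ := key
  refine ⟨δ, hδ, ?_⟩
  rintro γ ⟨W, hW, rfl⟩
  obtain ⟨u, v, huW, hvW, hu, hv, huv, -⟩ := exists_pair W hW
  obtain ⟨a, b, hab, hx⟩ := h (u, v) ⟨hu, hv, huv⟩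
  refine ⟨⟨a • u + b • v, mem_sphere_zero_iff_norm.2 (pair_norm hu hv huv hab)⟩,
    W.add_mem (W.smul_mem a huW) (W.smul_mem b hvW), fun x hd => hx x hd⟩

end Pool.Agent.Q24.TG
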