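import Pool.Agent.Q24.TG.T2

set_option autoImplicit false

/-!
# Job T3 of project TG: open sets meeting all great circles satisfy the control condition
-/

namespace Pool.Agent.Q24.TG

open Pool.Agent.Q73.TG
open MeasureTheory Set Filter Topology
open scoped ENNReal

lemma exists_angle {a b : ℝ} (hab : a ^ 2 + b ^ 2 = 1) :
    ∃ φ : ℝ, |φ| ≤ Real.pi ∧ a = Real.cos φ ∧ b = Real.sin φ := by
  have hn : ‖(⟨a, b⟩ : ℂ)‖ = 1 := by
    have h : ‖(⟨a, b⟩ : ℂ)‖ ^ 2 = 1 := by
      rw [Complex.sq_norm, Complex.normSq_apply]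
      simp only
      linarith
    have h0 := norm_nonneg (⟨a, b⟩ : ℂ)
    nlinarith
  refine ⟨Complex.arg ⟨a, b⟩, Complex.abs_arg_le_pi _, ?_, ?_⟩
  · have := Complex.norm_mul_cos_arg ⟨a, b⟩
    rw [hn, one_mul] at this
    exact this.symm
  · have := Complex.norm_mul_sin_arg ⟨a, b⟩
    rw [hn, one_mul] at this
    exact this.symm

section rot

variable {m : ℕ}

/-- the rotation in the plane of `u, v` as a linear map -/
noncomputable def rotL (u v : E m) (θ : ℝ) : E m →ₗ[ℝ] E m where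
  toFun x := x + ((Real.cos θ - 1) * inner ℝ u x - Real.sin θ * inner ℝ v x) • u +
    ((Real.cos θ - 1) * inner ℝ v x + Real.sin θ * inner ℝ u x) • v
  map_add' x y := by
    rw [inner_add_right, inner_add_right]
    module
  map_smul' r x := by
    rw [inner_smul_right, inner_smul_right, RingHom.id_apply]
    module

lemma rotL_norm {u v : E m} (hu : ‖u‖ = 1) (hv : ‖v‖ = 1) (huv : inner ℝ u v = 0) (θ : ℝ) (x : E m) :
    ‖rotL u v θ x‖ = ‖x‖ := by
  have h : ‖rotL u v θ x‖ ^ 2 = ‖x‖ ^ 2 := by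
    change ‖x + ((Real.cos θ - 1) * inner ℝ u x - Real.sin θ * inner ℝ v x) • u +
      ((Real.cos θ - 1) * inner ℝ v x + Real.sin θ * inner ℝ u x) • v‖ ^ 2 = _
    rw [add_assoc, @norm_add_sq_real, pair_normSq hu hv huv, inner_add_right, inner_smul_right,
      inner_smul_right, real_inner_comm u x, real_inner_comm v x]
    have hcs := Real.sin_sq_add_cos_sq θ
    set p : ℝ := inner ℝ u x
    set q : ℝ := inner ℝ v x
    linear_combination (p ^ 2 + q ^ 2) * hcs
  exact (pow_left_inj₀ (norm_nonneg _) (norm_nonneg _) two_ne_zero).1 h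

/-- the rotation -/
noncomputable def rot {u v : E m} (hu : ‖u‖ = 1) (hv : ‖v‖ = 1) (huv : inner ℝ u v = 0) (θ : ℝ) :
    E m ≃ₗᵢ[ℝ] E m :=
  (⟨rotL u v θ, rotL_norm hu hv huv θ⟩ : E m →ₗᵢ[ℝ] E m).toLinearIsometryEquiv rfl

lemma rot_apply {u v : E m} (hu : ‖u‖ = 1) (hv : ‖v‖ = 1) (huv : inner ℝ u v = 0) (θ : ℝ) (x : E m) :
    rot hu hv huv θ x = rotL u v θ x := rfl

lemma rot_circle {u v : E m} (hu : ‖u‖ = 1) (hv : ‖v‖ = 1) (huv : inner ℝ u v = 0) (θ φ : ℝ) :
    rot hu hv huv θ (Real.cos φ • u + Real.sin φ • v) =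
      Real.cos (φ + θ) • u + Real.sin (φ + θ) • v := by
  rw [rot_apply]
  have h1 : inner ℝ u (Real.cos φ • u + Real.sin φ • v) = Real.cos φ := by
    rw [inner_add_right, inner_smul_right, inner_smul_right, huv, real_inner_self_eq_norm_sq, hu]
    ring
  have h2 : inner ℝ v (Real.cos φ • u + Real.sin φ • v) = Real.sin φ := by
    rw [inner_add_right, inner_smul_right, inner_smul_right, real_inner_comm u v, huv,
      real_inner_self_eq_norm_sq, hv]
    ring
  change (Real.cos φ • u + Real.sin φ • v) + ((Real.cos θ - 1) * inner ℝ u (Real.cos φ • u + Real.sin φ • v) -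
    Real.sin θ * inner ℝ v (Real.cos φ • u + Real.sin φ • v)) • u +
      ((Real.cos θ - 1) * inner ℝ v (Real.cos φ • u + Real.sin φ • v) +
        Real.sin θ * inner ℝ u (Real.cos φ • u + Real.sin φ • v)) • v = _
  rw [h1, h2, Real.cos_add, Real.sin_add]
  module

lemma circle_dist {u v : E m} (hu : ‖u‖ = 1) (hv : ‖v‖ = 1) (huv : inner ℝ u v = 0) (φ ψ : ℝ) :
    dist (Real.cos φ • u + Real.sin φ • v) (Real.cos ψ • u + Real.sin ψ • v) ≤ |φ - ψ| := by
  rw [dist_eq_norm]
  have e : Real.cos φ • u + Real.sin φ • v - (Real.cos ψ • u + Real.sin ψ • v) =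
      (Real.cos φ - Real.cos ψ) • u + (Real.sin φ - Real.sin ψ) • v := by module
  rw [e]
  have h := pair_normSq hu hv huv (Real.cos φ - Real.cos ψ) (Real.sin φ - Real.sin ψ)
  have h2 : (Real.cos φ - Real.cos ψ) ^ 2 + (Real.sin φ - Real.sin ψ) ^ 2 = 2 - 2 * Real.cos (φ - ψ) := by
    rw [Real.cos_sub]
    have h1 := Real.sin_sq_add_cos_sq φ
    have h3 := Real.sin_sq_add_cos_sq ψ
    linear_combination h1 + h3
  rw [h2] at h
  have h3 := Real.one_sub_sq_div_two_le_cos (x := φ - ψ)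
  refine abs_le_of_sq_le_sq' ?_ (abs_nonneg _) |>.2
  rw [h, sq_abs]
  linarith

end rot

lemma sph_norm {m : ℕ} (x : Sph m) : ‖(x : E m)‖ = 1 := mem_sphere_zero_iff_norm.1 x.2

/-- chord and arc -/
lemma dist_le_gdist {m : ℕ} (x y : Sph m) : dist (x : E m) y ≤ gdist x y := by
  unfold gdist
  set t : ℝ := inner ℝ (x : E m) y with ht
  have h1 : |t| ≤ 1 := by
    have := abs_real_inner_le_norm (x : E m) y
    rwa [sph_norm, sph_norm, one_mul] at this
  have h2 : Real.cos (Real.arccos t) = t := Real.cos_arccos (abs_le.1 h1).1 (abs_le.1 h1).2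
  have h3 := Real.one_sub_sq_div_two_le_cos (x := Real.arccos t)
  rw [h2] at h3
  have h4 : dist (x : E m) y ^ 2 = 2 - 2 * t := by
    rw [dist_eq_norm, @norm_sub_sq_real, sph_norm, sph_norm, ← ht]
    ring
  refine abs_le_of_sq_le_sq' ?_ (Real.arccos_nonneg t) |>.2
  rw [h4]
  linarith

lemma tube_open {m : ℕ} (r : ℝ) (γ : Set (Sph m)) : IsOpen (tube r γ) := by
  have e : tube r γ = ⋃ y ∈ γ, {x : Sph m | gdist x y < r} := by
    ext x
    simp [tube]
  rw [e]
  refine isOpen_biUnion fun y _ => isOpen_lt ?_ continuous_const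
  unfold gdist
  exact Real.continuous_arccos.comp (by fun_prop)

instance vol_fin (m : ℕ) : IsFiniteMeasure (vol m) := by
  unfold vol
  infer_instance

/-- **open sets meeting all great circles** -/
theorem t3 (h1 : T1) (h2 : T2) : T3 := by
  intro m A hA hmeet
  obtain ⟨δ, hδ, hball⟩ := h2 m A hA hmeet
  have hpi := Real.pi_pos
  -- the number of the rotations
  obtain ⟨M, hM⟩ := exists_nat_gt (8 * Real.pi / δ)
  have hM0 : (0 : ℝ) < M := lt_of_le_of_lt (by positivity) hM
  set h : ℝ := 2 * Real.pi / M with hh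
  have hh0 : 0 < h := by positivity
  have hhδ : h ≤ δ / 4 := by
    rw [hh, div_le_iff₀ hM0]
    rw [div_lt_iff₀ hδ] at hM
    linarith
  have hMh : M * h = 2 * Real.pi := by rw [hh]; field_simp
  refine ⟨δ / 4, by positivity, 1 / (2 * M + 1), by positivity, ?_⟩
  rintro γ ⟨W, hW, rfl⟩ lam hlam
  set γ : Set (Sph m) := {x : Sph m | (x : E m) ∈ W} with hγ
  set r : ℝ := δ / 4 * lam ^ (-(1 / 2) : ℝ) with hr
  have hrδ : r ≤ δ / 4 := by
    have : lam ^ (-(1 / 2) : ℝ) ≤ 1 := Real.rpow_le_one_of_one_le_of_nonpos hlam (by norm_num)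
    rw [hr]
    nlinarith
  obtain ⟨u, v, huW, hvW, hu, hv, huv, hspan⟩ := exists_pair W hW
  obtain ⟨x0, hx0γ, hx0⟩ := hball γ ⟨W, hW, rfl⟩
  -- coordinates on the circle
  have hcirc : ∀ y : Sph m, y ∈ γ → ∃ φ : ℝ, |φ| ≤ Real.pi ∧
      (y : E m) = Real.cos φ • u + Real.sin φ • v := by
    intro y hy
    obtain ⟨a, b, hab⟩ := hspan y hy
    have h3 : a ^ 2 + b ^ 2 = 1 := by
      rw [← pair_normSq hu hv huv, ← hab, sph_norm, one_pow]
    obtain ⟨φ, hφ, rfl, rfl⟩ := exists_angle h3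
    exact ⟨φ, hφ, hab⟩
  obtain ⟨ψ, hψ, hx0ψ⟩ := hcirc x0 hx0γ
  set Ro : ℕ → (E m ≃ₗᵢ[ℝ] E m) := fun j => rot hu hv huv (j * h - 2 * Real.pi) with hRo
  set S : Set (Sph m) := A ∩ tube r γ with hS
  have hSm : MeasurableSet S := hA.measurableSet.inter (tube_open r γ).measurableSet
  have hcov : tube r γ ⊆ ⋃ j ∈ Finset.range (2 * M + 1), {x : Sph m | ∃ y ∈ S, (y : E m) = Ro j (x : E m)} := by
    rintro x ⟨y, hyγ, hxy⟩
    obtain ⟨φ, hφ, hyφ⟩ := hcirc y hyγ
    -- the choice of the rotation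
    set α : ℝ := ψ - φ + 2 * Real.pi with hα
    have hα0 : 0 ≤ α := by
      have := (abs_le.1 hψ).1
      have := (abs_le.1 hφ).2
      linarith
    have hα1 : α ≤ 4 * Real.pi := by
      have := (abs_le.1 hψ).2
      have := (abs_le.1 hφ).1
      linarith
    set j : ℕ := ⌊α / h⌋₊ with hj
    have hj1 : (j : ℝ) ≤ α / h := Nat.floor_le (by positivity)
    have hj2 : α / h < j + 1 := Nat.lt_floor_add_one _
    rw [le_div_iff₀ hh0] at hj1
    rw [div_lt_iff₀ hh0] at hj2
    have hjM : j < 2 * M + 1 := by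
      have h3 : (j : ℝ) * h ≤ (2 * M : ℝ) * h := by nlinarith
      have h4 : (j : ℝ) ≤ 2 * M := le_of_mul_le_mul_right h3 hh0
      have h5 : j ≤ 2 * M := by exact_mod_cast h4
      omega
    refine mem_biUnion (Finset.mem_coe.2 (Finset.mem_range.2 hjM)) ?_
    set R := Ro j with hR
    have hRx : ‖R (x : E m)‖ = 1 := by rw [R.norm_map, sph_norm]
    have hRy : ‖R (y : E m)‖ = 1 := by rw [R.norm_map, sph_norm]
    set x' : Sph m := ⟨R (x : E m), mem_sphere_zero_iff_norm.2 hRx⟩ with hx'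
    set y' : Sph m := ⟨R (y : E m), mem_sphere_zero_iff_norm.2 hRy⟩ with hy'
    have hRyc : R (y : E m) = Real.cos (φ + (j * h - 2 * Real.pi)) • u +
        Real.sin (φ + (j * h - 2 * Real.pi)) • v := by
      rw [hyφ]
      exact rot_circle hu hv huv _ φ
    have hy'γ : y' ∈ γ := by
      change R (y : E m) ∈ W
      rw [hRyc]
      exact W.add_mem (W.smul_mem _ huW) (W.smul_mem _ hvW)
    have hg : gdist x' y' = gdist x y := by
      unfold gdist
      rw [hx', hy']
      simp only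
      rw [R.inner_map_map]
    have htube : x' ∈ tube r γ := ⟨y', hy'γ, by rw [hg]; exact hxy⟩
    have hd1 : dist (x' : E m) y' < δ / 4 :=
      lt_of_lt_of_le (lt_of_le_of_lt (dist_le_gdist x' y') (by rw [hg]; exact hxy)) hrδ
    have hd2 : dist (y' : E m) x0 ≤ δ / 4 := by
      have h3 : (y' : E m) = R (y : E m) := rfl
      rw [h3, hRyc, hx0ψ]
      refine (circle_dist hu hv huv _ _).trans ?_
      have e : φ + (j * h - 2 * Real.pi) - ψ = j * h - α := by rw [hα]; ring
      rw [e, abs_le]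
      constructor <;> linarith
    have hA' : x' ∈ A := by
      apply hx0
      rw [Subtype.dist_eq]
      have := dist_triangle (x' : E m) y' x0
      linarith
    exact ⟨x', ⟨hA', htube⟩, rfl⟩
  have hmeas : vol m (tube r γ) ≤ (2 * M + 1 : ℕ) * vol m S := by
    refine (measure_mono hcov).trans ((measure_biUnion_finset_le _ _).trans (le_of_eq ?_))
    rw [Finset.sum_congr rfl fun j _ => h1 m (Ro j) S hSm, Finset.sum_const, Finset.card_range,
      nsmul_eq_mul]
  have hreal : (vol m).real (tube r γ) ≤ (2 * M + 1) * (vol m).real S := by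
    unfold Measure.real
    have h3 := ENNReal.toReal_mono (ENNReal.mul_ne_top (ENNReal.natCast_ne_top _) (measure_ne_top _ _)) hmeas
    rw [ENNReal.toReal_mul, ENNReal.toReal_natCast] at h3
    push_cast at h3
    exact h3
  rw [div_mul_eq_mul_div, one_mul, div_le_iff₀ (by positivity), mul_comm]
  exact hreal

end Pool.Agent.Q24.TG
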