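import Pool.Agent.Q73.TG.Stm

set_option autoImplicit false

/-!
# Job T6 of project TG: the inequality of Khintchine with explicit constants
-/

namespace Pool.Agent.Q24.TG

open Pool.Agent.Q73.TG

section

variable {ι : Type} [Fintype ι] [DecidableEq ι]

/-- change one sign -/
def flp (i : ι) (s : ι → Bool) : ι → Bool := Function.update s i (!(s i))

lemma flp_invol (i : ι) : Function.Involutive (flp i) := by
  intro s
  unfold flp
  funext j
  rcases eq_or_ne j i with rfl | h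
  · simp
  · simp [Function.update_of_ne h]

lemma sum_flp (i : ι) (g : (ι → Bool) → ℝ) : ∑ s, g (flp i s) = ∑ s, g s :=
  Equiv.sum_comp (flp_invol i).toPerm g

lemma sum_pair (i : ι) (g : (ι → Bool) → ℝ) : ∑ s, g s = ∑ s, (g s + g (flp i s)) / 2 := by
  rw [← Finset.sum_div, Finset.sum_add_distrib, sum_flp]
  ring

/-- a sum with signs over a finite set -/
noncomputable def ff (a : ι → ℂ) (S : Finset ι) (s : ι → Bool) : ℂ :=
  ∑ i ∈ S, ((sg (s i) : ℝ) : ℂ) * a i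

lemma ff_insert (a : ι → ℂ) {S : Finset ι} {i : ι} (hi : i ∉ S) (s : ι → Bool) :
    ff a (insert i S) s = ff a S s + ((sg (s i) : ℝ) : ℂ) * a i := by
  unfold ff
  rw [Finset.sum_insert hi, add_comm]

lemma ff_flp (a : ι → ℂ) {S : Finset ι} {i : ι} (hi : i ∉ S) (s : ι → Bool) :
    ff a S (flp i s) = ff a S s := by
  unfold ff
  refine Finset.sum_congr rfl fun j hj => ?_
  have h : j ≠ i := fun h => hi (h ▸ hj)
  rw [flp, Function.update_of_ne h]

lemma sg_not (t : Bool) : sg (!t) = -sg t := by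
  unfold sg
  cases t <;> simp

lemma sg_sq (t : Bool) : sg t ^ 2 = 1 := by
  unfold sg
  cases t <;> norm_num

lemma ff_insert_flp (a : ι → ℂ) {S : Finset ι} {i : ι} (hi : i ∉ S) (s : ι → Bool) :
    ff a (insert i S) (flp i s) = ff a S s - ((sg (s i) : ℝ) : ℂ) * a i := by
  rw [ff_insert a hi, ff_flp a hi]
  have : flp i s i = !(s i) := by
    unfold flp
    rw [Function.update_self]
  rw [this, sg_not]
  push_cast
  ring

lemma nsq (z : ℂ) : ‖z‖ ^ 2 = z.re ^ 2 + z.im ^ 2 := by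
  rw [Complex.sq_norm, Complex.normSq_apply]
  ring

lemma nplus (w c : ℂ) {e : ℝ} (he : e ^ 2 = 1) :
    ‖w + (e : ℂ) * c‖ ^ 2 = ‖w‖ ^ 2 + ‖c‖ ^ 2 + 2 * e * (w.re * c.re + w.im * c.im) := by
  rw [nsq, nsq, nsq]
  simp only [Complex.add_re, Complex.add_im, Complex.re_ofReal_mul, Complex.im_ofReal_mul]
  linear_combination (c.re ^ 2 + c.im ^ 2) * he

lemma nminus (w c : ℂ) {e : ℝ} (he : e ^ 2 = 1) :
    ‖w - (e : ℂ) * c‖ ^ 2 = ‖w‖ ^ 2 + ‖c‖ ^ 2 - 2 * e * (w.re * c.re + w.im * c.im) := by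
  rw [nsq, nsq, nsq]
  simp only [Complex.sub_re, Complex.sub_im, Complex.re_ofReal_mul, Complex.im_ofReal_mul]
  linear_combination (c.re ^ 2 + c.im ^ 2) * he

lemma key2 (w c : ℂ) {e : ℝ} (he : e ^ 2 = 1) :
    (‖w + (e : ℂ) * c‖ ^ 2 + ‖w - (e : ℂ) * c‖ ^ 2) / 2 = ‖w‖ ^ 2 + ‖c‖ ^ 2 := by
  rw [nplus w c he, nminus w c he]
  ring

lemma key4 (w c : ℂ) {e : ℝ} (he : e ^ 2 = 1) :
    (‖w + (e : ℂ) * c‖ ^ 4 + ‖w - (e : ℂ) * c‖ ^ 4) / 2 ≤
      ‖w‖ ^ 4 + 6 * (‖w‖ ^ 2 * ‖c‖ ^ 2) + ‖c‖ ^ 4 := by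
  have e1 : ∀ x : ℝ, x ^ 4 = (x ^ 2) ^ 2 := fun x => by ring
  rw [e1 ‖w + (e : ℂ) * c‖, e1 ‖w - (e : ℂ) * c‖, e1 ‖w‖, e1 ‖c‖, nplus w c he, nminus w c he]
  have h1 : (w.re * c.re + w.im * c.im) ^ 2 ≤ ‖w‖ ^ 2 * ‖c‖ ^ 2 := by
    rw [nsq, nsq]
    nlinarith [sq_nonneg (w.re * c.im - w.im * c.re)]
  have h2 : (2 * e * (w.re * c.re + w.im * c.im)) ^ 2 = 4 * (w.re * c.re + w.im * c.im) ^ 2 := by
    rw [mul_pow, mul_pow, he]
    ring
  nlinarith

lemma mom2 (a : ι → ℂ) (S : Finset ι) :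
    ∑ s, ‖ff a S s‖ ^ 2 = (Fintype.card (ι → Bool) : ℝ) * ∑ i ∈ S, ‖a i‖ ^ 2 := by
  induction S using Finset.induction_on with
  | empty => simp [ff]
  | insert i S hi ih =>
    rw [sum_pair i]
    have h1 : ∀ s, (‖ff a (insert i S) s‖ ^ 2 + ‖ff a (insert i S) (flp i s)‖ ^ 2) / 2 =
        ‖ff a S s‖ ^ 2 + ‖a i‖ ^ 2 := by
      intro s
      rw [ff_insert a hi, ff_insert_flp a hi]
      exact key2 _ _ (sg_sq _)
    simp only [h1]
    rw [Finset.sum_add_distrib, ih, Finset.sum_insert hi, Finset.sum_const, Finset.card_univ,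
      nsmul_eq_mul]
    ring

lemma mom4 (a : ι → ℂ) (S : Finset ι) :
    ∑ s, ‖ff a S s‖ ^ 4 ≤ (Fintype.card (ι → Bool) : ℝ) * (3 * (∑ i ∈ S, ‖a i‖ ^ 2) ^ 2) := by
  induction S using Finset.induction_on with
  | empty => simp [ff]
  | insert i S hi ih =>
    rw [sum_pair i]
    have h1 : ∀ s, (‖ff a (insert i S) s‖ ^ 4 + ‖ff a (insert i S) (flp i s)‖ ^ 4) / 2 ≤
        ‖ff a S s‖ ^ 4 + 6 * (‖ff a S s‖ ^ 2 * ‖a i‖ ^ 2) + ‖a i‖ ^ 4 := by
      intro s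
      rw [ff_insert a hi, ff_insert_flp a hi]
      exact key4 _ _ (sg_sq _)
    refine (Finset.sum_le_sum fun s _ => h1 s).trans ?_
    rw [Finset.sum_add_distrib, Finset.sum_add_distrib, ← Finset.mul_sum, ← Finset.sum_mul, mom2,
      Finset.sum_insert hi, Finset.sum_const, Finset.card_univ, nsmul_eq_mul]
    have hN : (0 : ℝ) ≤ (Fintype.card (ι → Bool) : ℝ) := Nat.cast_nonneg _
    have h2 : 0 ≤ (Fintype.card (ι → Bool) : ℝ) * ‖a i‖ ^ 4 := by positivity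
    nlinarith

end

/-- pointwise bound for the lower estimate -/
lemma pt_low {u p : ℝ} (hu : 0 ≤ u) (h1 : 1 ≤ p) (h2 : p ≤ 2) :
    u ^ 2 - 4 / 27 * u ^ 4 ≤ u ^ p := by
  rcases le_total u 1 with hu1 | hu1
  · rcases hu.eq_or_lt with rfl | hu0
    · rw [Real.zero_rpow (by linarith)]
      norm_num
    · have h3 : u ^ (2 : ℝ) ≤ u ^ p := Real.rpow_le_rpow_of_exponent_ge hu0 hu1 h2
      rw [Real.rpow_two] at h3
      have : 0 ≤ u ^ 4 := by positivity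
      linarith
  · have h3 : u ^ (1 : ℝ) ≤ u ^ p := Real.rpow_le_rpow_of_exponent_le hu1 h1
    rw [Real.rpow_one] at h3
    have h4 : u ^ 2 - 4 / 27 * u ^ 4 ≤ u := by
      have : 0 ≤ u * (u + 3) * (2 * u - 3) ^ 2 := by positivity
      nlinarith
    linarith

/-- **the inequality of Khintchine** -/
theorem t6 : T6 := by
  intro ι _ _ a p hp1 hp4
  set N : ℝ := (Fintype.card (ι → Bool) : ℝ) with hN
  have hN2 : N = 2 ^ Fintype.card ι := by
    rw [hN, Fintype.card_fun, Fintype.card_bool]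
    push_cast
    rfl
  have hN0 : 0 < N := by rw [hN2]; positivity
  have hw : ((1 : ℝ) / 2) ^ Fintype.card ι = N⁻¹ := by
    rw [hN2, one_div, inv_pow]
  set f : (ι → Bool) → ℂ := fun s => ∑ i, ((sg (s i) : ℝ) : ℂ) * a i with hf
  set σ : ℝ := ∑ i, ‖a i‖ ^ 2 with hσ
  have hσ0 : 0 ≤ σ := Finset.sum_nonneg fun i _ => by positivity
  have hm2 : ∑ s, ‖f s‖ ^ 2 = N * σ := mom2 a Finset.univ
  have hm4 : ∑ s, ‖f s‖ ^ 4 ≤ N * (3 * σ ^ 2) := mom4 a Finset.univ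
  have hwsum : ∑ _s : ι → Bool, N⁻¹ = 1 := by
    rw [Finset.sum_const, Finset.card_univ, nsmul_eq_mul, ← hN, mul_inv_cancel₀ hN0.ne']
  have hNi : 0 < N⁻¹ := by positivity
  rw [hw]
  have hE2 : N⁻¹ * ∑ s, ‖f s‖ ^ 2 = σ := by
    rw [hm2]
    field_simp
  have hE4 : N⁻¹ * ∑ s, ‖f s‖ ^ 4 ≤ 3 * σ ^ 2 := by
    have := mul_le_mul_of_nonneg_left hm4 hNi.le
    rwa [← mul_assoc, inv_mul_cancel₀ hN0.ne', one_mul] at this
  have hEp0 : 0 ≤ N⁻¹ * ∑ s, ‖f s‖ ^ p :=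
    mul_nonneg hNi.le (Finset.sum_nonneg fun s _ => by positivity)
  constructor
  · rcases le_total 2 p with h2 | h2
    · have h3 := Real.rpow_arith_mean_le_arith_mean_rpow Finset.univ (fun _ : ι → Bool => N⁻¹)
        (fun s => ‖f s‖ ^ 2) (fun _ _ => hNi.le) hwsum (fun _ _ => by positivity)
        (p := p / 2) (by linarith)
      rw [← Finset.mul_sum, ← Finset.mul_sum, hE2] at h3
      have h4 : ∀ s, (‖f s‖ ^ 2) ^ (p / 2) = ‖f s‖ ^ p := by
        intro s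
        rw [← Real.rpow_natCast, ← Real.rpow_mul (norm_nonneg _)]
        congr 1
        push_cast
        ring
      simp only [h4] at h3
      have h5 : 0 ≤ σ ^ (p / 2) := by positivity
      linarith
    · rcases hσ0.eq_or_lt with h0 | hσp
      · rw [← h0, Real.zero_rpow (by linarith), mul_zero]
        exact hEp0
      · set r : ℝ := Real.sqrt σ with hr
        have hr0 : 0 < r := Real.sqrt_pos.2 hσp
        have hr2 : r ^ 2 = σ := Real.sq_sqrt hσ0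
        have h3 : ∀ s, ‖f s‖ ^ 2 / σ - 4 / 27 * (‖f s‖ ^ 4 / σ ^ 2) ≤ ‖f s‖ ^ p / σ ^ (p / 2) := by
          intro s
          have h4 := pt_low (u := ‖f s‖ / r) (by positivity) hp1 h2
          rw [Real.div_rpow (norm_nonneg _) hr0.le, div_pow, div_pow] at h4
          have h5 : r ^ p = σ ^ (p / 2) := by
            rw [← hr2, ← Real.rpow_natCast, ← Real.rpow_mul hr0.le]
            congr 1
            push_cast
            ring
          have h6 : r ^ 4 = σ ^ 2 := by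
            rw [← hr2]
            ring
          rw [h5, h6, hr2] at h4
          exact h4
        have h4 : ∑ s, (‖f s‖ ^ 2 / σ - 4 / 27 * (‖f s‖ ^ 4 / σ ^ 2)) ≤ ∑ s, ‖f s‖ ^ p / σ ^ (p / 2) :=
          Finset.sum_le_sum fun s _ => h3 s
        rw [Finset.sum_sub_distrib, ← Finset.mul_sum, ← Finset.sum_div, ← Finset.sum_div,
          ← Finset.sum_div] at h4
        have h5 := mul_le_mul_of_nonneg_left h4 hNi.le
        have e1 : N⁻¹ * ((∑ s, ‖f s‖ ^ 2) / σ - 4 / 27 * ((∑ s, ‖f s‖ ^ 4) / σ ^ 2)) =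
            (N⁻¹ * ∑ s, ‖f s‖ ^ 2) / σ - 4 / 27 * ((N⁻¹ * ∑ s, ‖f s‖ ^ 4) / σ ^ 2) := by ring
        have e2 : N⁻¹ * ((∑ s, ‖f s‖ ^ p) / σ ^ (p / 2)) = (N⁻¹ * ∑ s, ‖f s‖ ^ p) / σ ^ (p / 2) := by ring
        rw [e1, e2, hE2, div_self hσp.ne'] at h5
        have h6 : (N⁻¹ * ∑ s, ‖f s‖ ^ 4) / σ ^ 2 ≤ 3 := by
          rw [div_le_iff₀ (by positivity)]
          exact hE4
        have h7 : 1 / 3 ≤ (N⁻¹ * ∑ s, ‖f s‖ ^ p) / σ ^ (p / 2) := by linarith
        rwa [le_div_iff₀ (by positivity)] at h7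
  · have h3 := Real.rpow_arith_mean_le_arith_mean_rpow Finset.univ (fun _ : ι → Bool => N⁻¹)
      (fun s => ‖f s‖ ^ p) (fun _ _ => hNi.le) hwsum (fun _ _ => by positivity)
      (p := 4 / p) (by rw [le_div_iff₀ (by linarith)]; linarith)
    rw [← Finset.mul_sum, ← Finset.mul_sum] at h3
    have h4 : ∀ s, (‖f s‖ ^ p) ^ (4 / p) = ‖f s‖ ^ 4 := by
      intro s
      rw [← Real.rpow_mul (norm_nonneg _)]
      have : p * (4 / p) = ((4 : ℕ) : ℝ) := by
        have : p ≠ 0 := by linarith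
        field_simp
        norm_num
      rw [this, Real.rpow_natCast]
    simp only [h4] at h3
    have h5 := h3.trans hE4
    have h6 : ((N⁻¹ * ∑ s, ‖f s‖ ^ p) ^ (4 / p)) ^ (p / 4) ≤ (3 * σ ^ 2) ^ (p / 4) :=
      Real.rpow_le_rpow (by positivity) h5 (by linarith)
    rw [← Real.rpow_mul hEp0] at h6
    have h7 : 4 / p * (p / 4) = 1 := by
      have : p ≠ 0 := by linarith
      field_simp
    rw [h7, Real.rpow_one] at h6
    refine h6.trans ?_
    rw [Real.mul_rpow (by norm_num) (by positivity)]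
    have h8 : (σ ^ 2) ^ (p / 4) = σ ^ (p / 2) := by
      rw [← Real.rpow_natCast, ← Real.rpow_mul hσ0]
      congr 1
      push_cast
      ring
    rw [h8]
    refine mul_le_mul_of_nonneg_right ?_ (by positivity)
    calc (3 : ℝ) ^ (p / 4) ≤ 3 ^ (1 : ℝ) :=
          Real.rpow_le_rpow_of_exponent_le (by norm_num) (by linarith)
      _ = 3 := Real.rpow_one 3

end Pool.Agent.Q24.TG
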